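import Mathlib

/-!
# A discontinuous height on the circle
-/

set_option autoImplicit false

namespace Helper53K9.PP

open Filter Topology

/-- The circle. -/
abbrev R : Type := AddCircle (1 : ℝ)

theorem exists_ht : ∃ ht : R →+ ℝ, ∀ (t₀ : R), ∀ O ∈ 𝓝 t₀, ∀ M : ℝ, ∃ t ∈ O, M ≤ ht t := by
  have h1 : Real.sqrt 2 ∉ Submodule.span ℚ {(1 : ℝ)} := by
    intro h
    obtain ⟨q, hq⟩ := Submodule.mem_span_singleton.1 h
    apply irrational_sqrt_two
    refine ⟨q, ?_⟩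
    rw [← hq, Rat.smul_one_eq_cast]
  obtain ⟨f, hf, hf'⟩ := Submodule.exists_le_ker_of_notMem h1
  have hf1 : f 1 = 0 := by
    have := hf' (Submodule.mem_span_singleton_self (1 : ℝ))
    simpa using this
  have hf2 : ((f (Real.sqrt 2) : ℚ) : ℝ) ≠ 0 := by
    intro h0
    exact hf (by simpa using h0)
  let g : ℝ →+ ℝ :=
    { toFun := fun x => (f x : ℝ) / (f (Real.sqrt 2) : ℝ)
      map_zero' := by simp
      map_add' := fun x y => by simp [add_div] }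
  have hgq : ∀ q : ℚ, g q = 0 := by
    intro q
    show ((f (q : ℝ) : ℚ) : ℝ) / _ = 0
    have : (q : ℝ) = q • (1 : ℝ) := by rw [Rat.smul_one_eq_cast]
    rw [this, map_smul, hf1]
    simp
  have hgn : ∀ n : ℕ, g (n * Real.sqrt 2) = n := by
    intro n
    rw [← nsmul_eq_mul, map_nsmul]
    show n • (((f (Real.sqrt 2) : ℚ) : ℝ) / (f (Real.sqrt 2) : ℝ)) = n
    rw [div_self hf2]
    simp
  refine ⟨QuotientAddGroup.lift (AddSubgroup.zmultiples (1 : ℝ)) g ?_, ?_⟩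
  · intro x hx
    obtain ⟨k, rfl⟩ := AddSubgroup.mem_zmultiples_iff.1 hx
    have := hgq k
    rw [zsmul_one]
    exact_mod_cast this
  · intro t₀ O hO M
    obtain ⟨s, rfl⟩ := QuotientAddGroup.mk_surjective t₀
    have hc : ContinuousAt (fun x : ℝ => ((x : ℝ) : R)) s := by
      exact (AddCircle.continuous_mk' (1 : ℝ)).continuousAt
    obtain ⟨ε, hε, hball⟩ := Metric.mem_nhds_iff.1 (hc hO)
    obtain ⟨n, hn⟩ := exists_nat_ge M
    obtain ⟨q, hq1, hq2⟩ := exists_rat_btwn (show s - n * Real.sqrt 2 < s - n * Real.sqrt 2 + ε by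
      linarith)
    refine ⟨((n * Real.sqrt 2 + q : ℝ) : R), ?_, ?_⟩
    · apply hball
      rw [Metric.mem_ball, Real.dist_eq, abs_lt]
      constructor <;> linarith
    · show M ≤ g (n * Real.sqrt 2 + q)
      rw [map_add, hgq, hgn, add_zero]
      exact hn

theorem exists_seq {B R : Type} [Countable B] [Nonempty B] [TopologicalSpace R]
    [SecondCountableTopology R] [Nonempty R] (ht : R → ℝ)
    (h : ∀ (t₀ : R), ∀ O ∈ 𝓝 t₀, ∀ M : ℝ, ∃ t ∈ O, M ≤ ht t) :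
    ∃ (t : ℕ → R) (b : ℕ → B), (∀ k : ℕ, (k : ℝ) ≤ ht (t k)) ∧
      ∀ t₀ b₀, ∀ O ∈ 𝓝 t₀, ∀ M : ℕ, ∃ k ≥ M, b k = b₀ ∧ t k ∈ O := by
  classical
  let 𝒱 : Set (Set R) := TopologicalSpace.countableBasis R
  have h𝒱 : 𝒱.Countable := TopologicalSpace.countable_countableBasis R
  have hne : ∀ V : 𝒱, (V : Set R).Nonempty := fun V =>
    TopologicalSpace.nonempty_of_mem_countableBasis V.2
  have : Countable 𝒱 := h𝒱.to_subtype
  have : Nonempty 𝒱 := by
    obtain ⟨V, hV, -⟩ := (TopologicalSpace.isBasis_countableBasis R).exists_subset_of_mem_open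
      (Set.mem_univ (Classical.arbitrary R)) isOpen_univ
    exact ⟨⟨V, hV⟩⟩
  obtain ⟨f, hf⟩ := exists_surjective_nat ((𝒱 × B) × ℕ)
  have h1 : ∀ (V : 𝒱) (k : ℕ), ∃ t ∈ (V : Set R), (k : ℝ) ≤ ht t := by
    intro V k
    obtain ⟨t₀, ht₀⟩ := hne V
    exact h t₀ V ((TopologicalSpace.isOpen_of_mem_countableBasis V.2).mem_nhds ht₀) k
  choose t ht1 ht2 using h1
  refine ⟨fun k => t (f k).1.1 k, fun k => (f k).1.2, fun k => ht2 _ k, ?_⟩
  intro t₀ b₀ O hO M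
  obtain ⟨V, hV, ht₀V, hVO⟩ :=
    (TopologicalSpace.isBasis_countableBasis R).mem_nhds_iff.1 hO
  have h2 : {k : ℕ | (f k).1 = (⟨V, hV⟩, b₀)}.Infinite := by
    intro hfin
    have h3 : (Set.univ : Set ℕ) ⊆ (fun k => (f k).2) '' {k : ℕ | (f k).1 = (⟨V, hV⟩, b₀)} := by
      intro m _
      obtain ⟨k, hk⟩ := hf ((⟨V, hV⟩, b₀), m)
      exact ⟨k, by show (f k).1 = _; rw [hk], by show (f k).2 = _; rw [hk]⟩
    exact Set.infinite_univ ((hfin.image _).subset h3)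
  obtain ⟨k, hk, hkM⟩ := h2.exists_gt M
  have hk' : (f k).1 = (⟨V, hV⟩, b₀) := hk
  refine ⟨k, hkM.le, by show (f k).1.2 = b₀; rw [hk'], hVO ?_⟩
  have := ht1 (f k).1.1 k
  rw [hk'] at this
  simpa [hk'] using this

end Helper53K9.PP
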