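import Mathlib

/-!
# Group topologies given by semigroups
-/

set_option autoImplicit false

namespace Helper53K9.PP

open Filter Topology

section Semi

variable {G ι : Type*} [AddCommGroup G]

/-- The topology on `G` in which the sets `g + U i` form a base of neighbourhoods of `g`. -/
def semiTop [Nonempty ι] (U : ι → AddSubmonoid G) (hU : ∀ i j, ∃ k, U k ≤ U i ∧ U k ≤ U j) :
    TopologicalSpace G where
  IsOpen O := ∀ g ∈ O, ∃ i, ∀ s ∈ U i, g + s ∈ O
  isOpen_univ := fun _ _ => ⟨Classical.arbitrary ι, fun _ _ => trivial⟩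
  isOpen_inter := by
    rintro O O' h h' g ⟨hg, hg'⟩
    obtain ⟨i, hi⟩ := h g hg
    obtain ⟨j, hj⟩ := h' g hg'
    obtain ⟨k, hk, hk'⟩ := hU i j
    exact ⟨k, fun s hs => ⟨hi s (hk hs), hj s (hk' hs)⟩⟩
  isOpen_sUnion := by
    intro 𝒪 h g hg
    obtain ⟨O, hO, hgO⟩ := hg
    obtain ⟨i, hi⟩ := h O hO g hgO
    exact ⟨i, fun s hs => ⟨O, hO, hi s hs⟩⟩

variable [Nonempty ι] (U : ι → AddSubmonoid G) (hU : ∀ i j, ∃ k, U k ≤ U i ∧ U k ≤ U j)

theorem mem_nhds_semiTop {g : G} {s : Set G} :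
    s ∈ @nhds G (semiTop U hU) g ↔ ∃ i, ∀ x, x - g ∈ U i → x ∈ s := by
  letI := semiTop U hU
  rw [mem_nhds_iff]
  constructor
  · rintro ⟨O, hOs, hO, hg⟩
    obtain ⟨i, hi⟩ := hO g hg
    refine ⟨i, fun x hx => hOs ?_⟩
    have := hi _ hx
    rwa [add_sub_cancel] at this
  · rintro ⟨i, hi⟩
    refine ⟨{x | x - g ∈ U i}, hi, ?_, ?_⟩
    · intro x hx
      refine ⟨i, fun s hs => ?_⟩
      show x + s - g ∈ U i
      rw [show x + s - g = (x - g) + s by abel]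
      exact (U i).add_mem hx hs
    · show g - g ∈ U i
      rw [sub_self]
      exact (U i).zero_mem

theorem continuousAdd_semiTop : @ContinuousAdd G (semiTop U hU) _ := by
  letI := semiTop U hU
  refine ⟨continuous_iff_continuousAt.2 ?_⟩
  rintro ⟨g, g'⟩ s hs
  obtain ⟨i, hi⟩ := (mem_nhds_semiTop U hU).1 hs
  rw [mem_map, nhds_prod_eq]
  refine mem_of_superset (prod_mem_prod ((mem_nhds_semiTop U hU).2 ⟨i, fun x hx => hx⟩)
    ((mem_nhds_semiTop U hU).2 ⟨i, fun x hx => hx⟩) :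
      {x | x - g ∈ U i} ×ˢ {x | x - g' ∈ U i} ∈ nhds g ×ˢ nhds g') ?_
  rintro ⟨x, x'⟩ ⟨hx, hx'⟩
  apply hi
  show x + x' - (g + g') ∈ U i
  rw [show x + x' - (g + g') = (x - g) + (x' - g') by abel]
  exact (U i).add_mem hx hx'

end Semi

end Helper53K9.PP
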