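import Pool.Agent.Helper53K9.PP.Rec
import Pool.Agent.Helper53K9.PP.Semi
import Pool.Agent.Helper53K9.PP.Height

/-!
# The paratopological groups
-/

set_option autoImplicit false

namespace Helper53K9.PP

open Filter Topology Cardinal

/-- Countable pracompactness. -/
def CPrac (Y : Type*) [TopologicalSpace Y] : Prop :=
  ∃ D : Set Y, Dense D ∧ ∀ E ⊆ D, E.Infinite → ∃ x, ∀ O ∈ 𝓝 x, (O ∩ E).Infinite

/-- The coefficient group. -/
abbrev C : Type := A →₀ ZMod 2

/-- The underlying group. -/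
abbrev Car : Type := R × B × C

/-- The height on the circle. -/
noncomputable def ht : R →+ ℝ := exists_ht.choose

theorem ht_spec (t₀ : R) (O : Set R) (hO : O ∈ 𝓝 t₀) (M : ℝ) : ∃ t ∈ O, M ≤ ht t :=
  exists_ht.choose_spec t₀ O hO M

/-- The map to the compact group. -/
noncomputable def pr (y : A → T) : Car →+ T where
  toFun g := ev g.2.1 + Finsupp.linearCombination (ZMod 2) y g.2.2
  map_zero' := by simp
  map_add' g g' := by
    simp only [Prod.snd_add, Prod.fst_add, map_add]
    abel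

/-- The weight of a finite set. -/
noncomputable def wt (h : A → ℕ) (c : C) : ℝ := ∑ a ∈ c.support, (h a : ℝ)

theorem wt_nonneg (h : A → ℕ) (c : C) : 0 ≤ wt h c := Finset.sum_nonneg fun _ _ => Nat.cast_nonneg _

theorem wt_add_le (h : A → ℕ) (c c' : C) : wt h (c + c') ≤ wt h c + wt h c' := by
  classical
  unfold wt
  refine (Finset.sum_le_sum_of_subset_of_nonneg Finsupp.support_add
    fun _ _ _ => Nat.cast_nonneg _).trans ?_
  rw [← Finset.sum_union_inter]
  exact le_add_of_nonneg_right (Finset.sum_nonneg fun _ _ => Nat.cast_nonneg _)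

theorem wt_mono {h h' : A → ℕ} (hh : h ≤ h') (c : C) : wt h c ≤ wt h' c :=
  Finset.sum_le_sum fun a _ => Nat.cast_le.2 (hh a)

theorem le_wt (h : A → ℕ) (c : C) {a : A} (ha : a ∈ c.support) : (h a : ℝ) ≤ wt h c :=
  Finset.single_le_sum (f := fun a => (h a : ℝ)) (fun _ _ => Nat.cast_nonneg _) ha

/-- The semigroups. -/
noncomputable def UU (p : ℕ × (A → ℕ)) : AddSubmonoid Car where
  carrier := {g | g = 0 ∨ (p.1 : ℝ) + wt p.2 g.2.2 ≤ ht g.1}
  zero_mem' := Or.inl rfl
  add_mem' := by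
    rintro g g' (rfl | hg) (rfl | hg')
    · exact Or.inl (add_zero _)
    · rw [zero_add]
      exact Or.inr hg'
    · rw [add_zero]
      exact Or.inr hg
    · right
      have h1 : ht (g + g').1 = ht g.1 + ht g'.1 := by rw [Prod.fst_add, map_add]
      have h2 := wt_add_le p.2 g.2.2 g'.2.2
      have h3 : (g + g').2.2 = g.2.2 + g'.2.2 := rfl
      have h4 : (0 : ℝ) ≤ p.1 := Nat.cast_nonneg _
      rw [h1, h3]
      linarith

theorem mem_UU {p : ℕ × (A → ℕ)} {g : Car} :
    g ∈ UU p ↔ g = 0 ∨ (p.1 : ℝ) + wt p.2 g.2.2 ≤ ht g.1 := Iff.rfl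

theorem UU_dir (p q : ℕ × (A → ℕ)) : ∃ k, UU k ≤ UU p ∧ UU k ≤ UU q := by
  refine ⟨(p.1 + q.1, p.2 + q.2), ?_, ?_⟩
  · rintro g (hg | hg)
    · exact Or.inl hg
    · right
      have h1 := wt_mono (h := p.2) (h' := p.2 + q.2) (fun a => Nat.le_add_right _ _) g.2.2
      push_cast at hg
      have : (0 : ℝ) ≤ q.1 := Nat.cast_nonneg _
      linarith
  · rintro g (hg | hg)
    · exact Or.inl hg
    · right
      have h1 := wt_mono (h := q.2) (h' := p.2 + q.2) (fun a => Nat.le_add_left _ _) g.2.2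
      push_cast at hg
      have : (0 : ℝ) ≤ p.1 := Nat.cast_nonneg _
      linarith

/-- The map to `R × T`. -/
noncomputable def mp₀ (y : A → T) : Car →+ R × T :=
  AddMonoidHom.prod (AddMonoidHom.fst R (B × C)) (pr y)

/-- The topology. -/
noncomputable abbrev tau (y : A → T) : TopologicalSpace Car :=
  TopologicalSpace.induced (mp₀ y) (inferInstance : TopologicalSpace (R × T)) ⊓
    semiTop UU UU_dir

theorem mem_nhds_tau {y : A → T} {g : Car} {s : Set Car} :
    s ∈ @nhds Car (tau y) g ↔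
      ∃ K ∈ 𝓝 (mp₀ y g), ∃ p, ∀ x, mp₀ y x ∈ K → x - g ∈ UU p → x ∈ s := by
  rw [@nhds_inf, Filter.mem_inf_iff]
  constructor
  · rintro ⟨s₁, h₁, s₂, h₂, rfl⟩
    rw [@nhds_induced] at h₁
    obtain ⟨K, hK, hK'⟩ := h₁
    obtain ⟨p, hp⟩ := (mem_nhds_semiTop UU UU_dir).1 h₂
    exact ⟨K, hK, p, fun x hx hx' => ⟨hK' hx, hp x hx'⟩⟩
  · rintro ⟨K, hK, p, hp⟩
    refine ⟨{x | mp₀ y x ∈ K} ∪ s, ?_, {x | x - g ∈ UU p} ∪ s, ?_, ?_⟩
    · refine mem_of_superset ?_ Set.subset_union_left
      rw [@nhds_induced]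
      exact ⟨K, hK, fun x hx => hx⟩
    · refine mem_of_superset ?_ Set.subset_union_left
      exact (mem_nhds_semiTop UU UU_dir).2 ⟨p, fun x hx => hx⟩
    · ext x
      constructor
      · intro hx
        exact ⟨Or.inr hx, Or.inr hx⟩
      · rintro ⟨h1 | h1, h2 | h2⟩
        · exact hp x h1 h2
        · exact h2
        · exact h1
        · exact h1

theorem continuousAdd_tau (y : A → T) : @ContinuousAdd Car (tau y) _ := by
  refine continuousAdd_inf ?_ (continuousAdd_semiTop UU UU_dir)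
  exact continuousAdd_induced (mp₀ y)

theorem continuous_mp₀ (y : A → T) : @Continuous Car (R × T) (tau y) _ (mp₀ y) :=
  continuous_inf_dom_left continuous_induced_dom

/-- The paratopological group attached to the family `y`. -/
def Gr (_ : A → T) : Type := Car

noncomputable instance (y : A → T) : AddCommGroup (Gr y) := inferInstanceAs (AddCommGroup Car)

noncomputable instance (y : A → T) : TopologicalSpace (Gr y) := tau y

instance (y : A → T) : ContinuousAdd (Gr y) := continuousAdd_tau y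

/-- The identity. -/
noncomputable def un {y : A → T} : Gr y ≃+ Car := AddEquiv.refl _

/-- The map to `R × T`. -/
noncomputable def mp (y : A → T) : Gr y →+ R × T := mp₀ y

theorem continuous_mp (y : A → T) : Continuous (mp y) := continuous_mp₀ y

theorem mp_apply {y : A → T} (g : Gr y) :
    mp y g = ((un g).1, ev (un g).2.1 + Finsupp.linearCombination (ZMod 2) y (un g).2.2) := rfl

theorem mem_nhds_Gr {y : A → T} {g : Gr y} {s : Set (Gr y)} :
    s ∈ 𝓝 g ↔ ∃ K ∈ 𝓝 (mp y g), ∃ p, ∀ x : Gr y, mp y x ∈ K → un x - un g ∈ UU p → x ∈ s :=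
  mem_nhds_tau

end Helper53K9.PP
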