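import Mathlib

/-!
# Generic ultrafilter limits in the Bohr compactification of the countable Boolean group
-/

set_option autoImplicit false

namespace Helper53K9.PP

open Filter Cardinal

/-- The countable Boolean group. -/
abbrev B : Type := ℕ →₀ ZMod 2

/-- Its characters. -/
abbrev X : Type := B →ₗ[ZMod 2] ZMod 2

/-- The compact group of all functions on the set of characters. -/
abbrev T : Type := X → ZMod 2

/-- Evaluation. -/
noncomputable def ev : B →ₗ[ZMod 2] T := LinearMap.pi fun χ => χ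

@[simp] theorem ev_apply (b : B) (χ : X) : ev b χ = χ b := rfl

/-- `z` is the limit of the sequence `a` along `r`. -/
def Lim (r : Ultrafilter ℕ) (a : ℕ → B) (z : T) : Prop :=
  ∀ χ : X, ∀ᶠ n in (r : Filter ℕ), χ (a n) = z χ

theorem exists_Lim (r : Ultrafilter ℕ) (a : ℕ → B) : ∃ z, Lim r a z := by
  have h : ∀ χ : X, ∃ v : ZMod 2, ∀ᶠ n in (r : Filter ℕ), χ (a n) = v := by
    intro χ
    obtain ⟨v, hv⟩ := Ultrafilter.eq_pure_of_finite (r.map fun n => χ (a n))
    refine ⟨v, ?_⟩
    have h1 : {v} ∈ (r.map fun n => χ (a n)) := by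
      rw [hv]
      exact Ultrafilter.mem_pure.2 rfl
    exact Ultrafilter.mem_map.1 h1
  choose z hz using h
  exact ⟨z, hz⟩

theorem Lim.unique {r : Ultrafilter ℕ} {a : ℕ → B} {z z' : T} (h : Lim r a z)
    (h' : Lim r a z') : z = z' := by
  funext χ
  obtain ⟨n, hn⟩ := ((h χ).and (h' χ)).exists
  rw [← hn.1, ← hn.2]

theorem exists_char {a : ℕ → B} (ha : LinearIndependent (ZMod 2) a) (v : ℕ → ZMod 2) :
    ∃ χ : X, ∀ n, χ (a n) = v n := by
  have h1 : LinearMap.ker (Finsupp.linearCombination (ZMod 2) a) = ⊥ :=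
    linearIndependent_iff_ker.1 ha
  obtain ⟨g, hg⟩ := LinearMap.exists_leftInverse_of_injective _ h1
  refine ⟨(Finsupp.linearCombination (ZMod 2) v).comp g, fun n => ?_⟩
  have h2 : g (a n) = Finsupp.single n 1 := by
    have h3 := LinearMap.congr_fun hg (Finsupp.single n 1)
    simpa using h3
  simp [h2]

theorem zmod2_cases (x : ZMod 2) : x = 0 ∨ x = 1 := by
  revert x
  decide

theorem Lim.ultra_unique {a : ℕ → B} (ha : LinearIndependent (ZMod 2) a) {r r' : Ultrafilter ℕ}
    {z : T} (h : Lim r a z) (h' : Lim r' a z) : r = r' := by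
  classical
  apply Ultrafilter.coe_injective
  apply Filter.ext
  intro s
  obtain ⟨χ, hχ⟩ := exists_char ha fun n => if n ∈ s then 1 else 0
  have key : ∀ q : Ultrafilter ℕ, Lim q a z → (s ∈ q ↔ z χ = 1) := by
    intro q hq
    have h1 := hq χ
    constructor
    · intro hs
      obtain ⟨n, hn⟩ := (h1.and hs).exists
      rw [← hn.1, hχ]
      exact if_pos hn.2
    · intro hz
      filter_upwards [h1] with n hn
      rw [hχ, hz] at hn
      by_contra hns
      rw [if_neg hns] at hn
      exact zero_ne_one hn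
  exact (key r h).trans (key r' h').symm

/-- A free ultrafilter limit of an independent sequence is never in the group itself. -/
theorem Lim.notMem_range {a : ℕ → B} (ha : LinearIndependent (ZMod 2) a) {r : Ultrafilter ℕ}
    (hr : (r : Filter ℕ) ≤ cofinite) {b : B} (h : Lim r a (ev b)) : False := by
  classical
  by_cases hb : b ∈ Submodule.span (ZMod 2) (Set.range a)
  · rw [Finsupp.mem_span_range_iff_exists_finsupp] at hb
    obtain ⟨c, hc⟩ := hb
    obtain ⟨χ, hχ⟩ := exists_char ha fun n => if n ∈ c.support then 0 else 1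
    have h1 : χ b = 0 := by
      rw [← hc, Finsupp.sum, map_sum]
      refine Finset.sum_eq_zero fun n hn => ?_
      rw [map_smul, hχ, if_pos hn, smul_zero]
    have h2 : ∀ᶠ n in (r : Filter ℕ), n ∉ c.support := by
      apply hr
      exact c.support.finite_toSet.compl_mem_cofinite
    obtain ⟨n, hn, hn'⟩ := ((h χ).and h2).exists
    rw [hχ, if_neg hn', ev_apply, h1] at hn
    exact one_ne_zero hn
  · obtain ⟨χ, hχ, hχ'⟩ := Submodule.exists_le_ker_of_notMem hb
    obtain ⟨χ', hχ1⟩ := exists_char ha fun _ => 1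
    -- a functional vanishing on the span and nonzero at `b`
    have hχb : χ b = 1 := (zmod2_cases _).resolve_left (by
      intro h0
      exact hχ (by simpa using h0))
    have hχa : ∀ n, χ (a n) = 0 := fun n => by
      have := hχ' (Submodule.subset_span ⟨n, rfl⟩)
      simpa using this
    obtain ⟨n, hn⟩ := (h χ).exists
    rw [hχa, ev_apply, hχb] at hn
    exact zero_ne_one hn

/-- An independent family of size continuum. -/
theorem exists_indep : ∃ S : Set ℕ → Set ℕ, ∀ P Q : Finset (Set ℕ), Disjoint P Q →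
    {n | (∀ Y ∈ P, n ∈ S Y) ∧ ∀ Y ∈ Q, n ∉ S Y}.Infinite := by
  classical
  obtain ⟨e⟩ : Nonempty (Finset ℕ × Finset (Finset ℕ) ≃ ℕ) := by
    have : Countable (Finset ℕ × Finset (Finset ℕ)) := inferInstance
    have : Infinite (Finset ℕ × Finset (Finset ℕ)) := inferInstance
    obtain ⟨d⟩ := nonempty_denumerable (Finset ℕ × Finset (Finset ℕ))
    exact ⟨Denumerable.eqv _⟩
  refine ⟨fun Y => {n | (e.symm n).1.filter (· ∈ Y) ∈ (e.symm n).2}, fun P Q hPQ => ?_⟩
  have h1 : ∀ Y Y' : Set ℕ, Y ≠ Y' → ∃ k : ℕ, ¬ (k ∈ Y ↔ k ∈ Y') := by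
    intro Y Y' h
    by_contra hc
    push Not at hc
    exact h (Set.ext hc)
  choose! k hk using h1
  let N : ℕ := (P ×ˢ Q).sup fun q => k q.1 q.2 + 1
  have hN : ∀ Y ∈ P, ∀ Y' ∈ Q, k Y Y' < N := by
    intro Y hY Y' hY'
    exact Nat.lt_of_succ_le (Finset.le_sup (f := fun q : Set ℕ × Set ℕ => k q.1 q.2 + 1)
      (Finset.mem_product.2 ⟨hY, hY'⟩ : (Y, Y') ∈ P ×ˢ Q))
  refine Set.infinite_of_injective_forall_mem
    (f := fun n => e (Finset.range (N + n), P.image fun Y => (Finset.range (N + n)).filter (· ∈ Y)))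
    ?_ ?_
  · intro m n hmn
    have h2 := e.injective hmn
    have h3 : Finset.range (N + m) = Finset.range (N + n) := (Prod.ext_iff.1 h2).1
    have h4 := congrArg Finset.card h3
    simp only [Finset.card_range] at h4
    omega
  · intro n
    simp only [Set.mem_ofPred_eq, Equiv.symm_apply_apply]
    constructor
    · intro Y hY
      exact Finset.mem_image_of_mem _ hY
    · intro Y hY hc
      obtain ⟨Y', hY', hYY⟩ := Finset.mem_image.1 hc
      have hne : Y' ≠ Y := fun h => (Finset.disjoint_left.1 hPQ hY') (h ▸ hY)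
      apply hk Y' Y hne
      have h5 := hN Y' hY' Y hY
      have h6 := Finset.ext_iff.1 hYY (k Y' Y)
      simp only [Finset.mem_filter, Finset.mem_range] at h6
      constructor
      · intro h7
        exact (h6.1 ⟨by omega, h7⟩).2
      · intro h7
        exact (h6.2 ⟨by omega, h7⟩).2

/-- Limits of an independent sequence avoid any given set of size at most continuum. -/
theorem exists_Lim_notMem {a : ℕ → B} (ha : LinearIndependent (ZMod 2) a) (Z : Set T)
    (hZ : #Z ≤ 𝔠) : ∃ z, z ∉ Z ∧ ∃ r : Ultrafilter ℕ, (r : Filter ℕ) ≤ cofinite ∧ Lim r a z := by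
  classical
  obtain ⟨S, hS⟩ := exists_indep
  obtain ⟨e⟩ : Nonempty (Z ↪ Set ℕ) := by
    rw [← Cardinal.le_def, Cardinal.mk_set, Cardinal.mk_nat, Cardinal.two_power_aleph0]
    exact hZ
  have h1 : ∀ z : Z, ∃ χ : X, ∀ n, χ (a n) = if n ∈ S (e z) then 1 else 0 :=
    fun z => exists_char ha _
  choose χ hχ using h1
  let Y : Z → Set ℕ := fun z => {n | χ z (a n) ≠ (z : T) (χ z)}
  let f : Finset Z → Filter ℕ := fun F => cofinite ⊓ 𝓟 (⋂ z ∈ F, Y z)
  have hf : ∀ F, (f F).NeBot := by
    intro F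
    apply Set.Infinite.cofinite_inf_principal_neBot
    let P := (F.filter fun z : Z => (z : T) (χ z) = 0).image e
    let Q := (F.filter fun z : Z => (z : T) (χ z) ≠ 0).image e
    have hPQ : Disjoint P Q := by
      rw [Finset.disjoint_left]
      intro y hy hy'
      obtain ⟨z, hz, rfl⟩ := Finset.mem_image.1 hy
      obtain ⟨z', hz', h⟩ := Finset.mem_image.1 hy'
      have : z' = z := e.injective h
      subst this
      exact (Finset.mem_filter.1 hz').2 (Finset.mem_filter.1 hz).2
    refine (hS P Q hPQ).mono ?_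
    rintro n ⟨hn1, hn2⟩
    simp only [Set.mem_iInter]
    intro z hz
    show χ z (a n) ≠ (z : T) (χ z)
    by_cases h0 : (z : T) (χ z) = 0
    · rw [hχ, if_pos (hn1 _ (Finset.mem_image_of_mem _ (Finset.mem_filter.2 ⟨hz, h0⟩))), h0]
      exact one_ne_zero
    · rw [hχ, if_neg (hn2 _ (Finset.mem_image_of_mem _ (Finset.mem_filter.2 ⟨hz, h0⟩)))]
      exact fun h => h0 h.symm
  have hdir : Directed (· ≥ ·) f := by
    intro F F'
    refine ⟨F ∪ F', ?_, ?_⟩
    · refine inf_le_inf_left _ (principal_mono.2 ?_)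
      exact Set.biInter_subset_biInter_left fun z hz => Finset.mem_union_left _ hz
    · refine inf_le_inf_left _ (principal_mono.2 ?_)
      exact Set.biInter_subset_biInter_left fun z hz => Finset.mem_union_right _ hz
  have hne : (⨅ F, f F).NeBot := iInf_neBot_of_directed' hdir hf
  let r := Ultrafilter.of (⨅ F, f F)
  have hr : (r : Filter ℕ) ≤ ⨅ F, f F := Ultrafilter.of_le _
  obtain ⟨z, hz⟩ := exists_Lim r a
  refine ⟨z, fun hzZ => ?_, r, (hr.trans (iInf_le _ ∅)).trans inf_le_left, hz⟩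
  let w : Z := ⟨z, hzZ⟩
  have h3 : (r : Filter ℕ) ≤ 𝓟 (⋂ y ∈ ({w} : Finset Z), Y y) :=
    (hr.trans (iInf_le _ {w})).trans inf_le_right
  have h2 : ∀ᶠ n in (r : Filter ℕ), n ∈ Y w := by
    have h4 := h3 (mem_principal_self _)
    filter_upwards [h4] with n hn
    exact Set.mem_iInter₂.1 hn w (Finset.mem_singleton_self w)
  obtain ⟨n, hn, hn'⟩ := ((hz (χ w)).and h2).exists
  exact hn' hn

end Helper53K9.PP
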