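import Pool.Agent.Helper53K9.PP.Pos

/-!
# The product is not countably pracompact
-/

set_option autoImplicit false

namespace Helper53K9.PP

open Filter Topology Cardinal

theorem infinite_fiber {Q : Type*} (q : ℕ → Q) (h : (Set.range q).Finite) :
    ∃ c, {n | q n = c}.Infinite := by
  by_contra hc
  push Not at hc
  apply Set.infinite_univ (α := ℕ)
  refine (h.biUnion fun c _ => hc c).subset ?_
  intro k _
  exact Set.mem_biUnion ⟨k, rfl⟩ rfl

theorem finite_coeffs {Ω : Type*} [TopologicalSpace Ω] {y : A → T} (p : Ω → Gr y)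
    (hp : Continuous p) (E : Set Ω)
    (hE : ∀ F ⊆ E, F.Infinite → ∃ x, ∀ O ∈ 𝓝 x, (O ∩ F).Infinite) :
    ((fun e => (un (p e)).2.2) '' E).Finite := by
  classical
  by_contra hinf
  have h1 : ∀ S : Finset A, ∃ e ∈ E, ∃ i ∈ (un (p e)).2.2.support, i ∉ S := by
    intro S
    have hfin : {c : C | c.support ⊆ S}.Finite := by
      refine Set.Finite.of_injOn (f := Finsupp.support) (t := (S.powerset : Set (Finset A))) ?_ ?_
        (Finset.finite_toSet _)
      · intro c hc
        exact Finset.mem_coe.2 (Finset.mem_powerset.2 hc)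
      · intro c _ c' _ hcc
        ext a
        have h2 := Finset.ext_iff.1 hcc a
        rw [Finsupp.mem_support_iff, Finsupp.mem_support_iff] at h2
        rcases zmod2_cases (c a) with h3 | h3 <;> rcases zmod2_cases (c' a) with h4 | h4
        · rw [h3, h4]
        · exact absurd h3 (h2.2 (by rw [h4]; exact one_ne_zero))
        · exact absurd h4 (h2.1 (by rw [h3]; exact one_ne_zero))
        · rw [h3, h4]
    have h2 : ¬ ((fun e => (un (p e)).2.2) '' E) ⊆ {c : C | c.support ⊆ S} := fun h =>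
      hinf (hfin.subset h)
    rw [Set.not_subset] at h2
    obtain ⟨c, ⟨e, he, rfl⟩, hc⟩ := h2
    obtain ⟨i, hi, hi'⟩ := Finset.not_subset.1 hc
    exact ⟨e, he, i, hi, hi'⟩
  choose step hE' idx hidx hidx' using h1
  let S : ℕ → Finset A := fun n => Nat.rec ∅ (fun _ S => S ∪ (un (p (step S))).2.2.support) n
  have hS : ∀ n, S (n + 1) = S n ∪ (un (p (step (S n)))).2.2.support := fun n => rfl
  have hmono : ∀ m n, m ≤ n → S m ⊆ S n := by
    intro m n hmn
    induction n, hmn using Nat.le_induction with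
    | base => exact subset_rfl
    | succ n _ ih => exact ih.trans (by rw [hS]; exact Finset.subset_union_left)
  have hmem : ∀ k n, k < n → (un (p (step (S k)))).2.2.support ⊆ S n := by
    intro k n hkn
    refine Finset.Subset.trans ?_ (hmono (k + 1) n hkn)
    rw [hS]
    exact Finset.subset_union_right
  let e : ℕ → Ω := fun n => step (S n)
  let i : ℕ → A := fun n => idx (S n)
  have hi : ∀ n, i n ∈ (un (p (e n))).2.2.support := fun n => hidx _
  have hi' : ∀ k n, k < n → i n ∉ (un (p (e k))).2.2.support := fun k n hkn hc =>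
    hidx' (S n) (hmem k n hkn hc)
  have hiinj : Function.Injective i := by
    intro m n hmn
    by_contra hne
    rcases lt_or_gt_of_ne hne with h | h
    · exact hi' m n h (hmn ▸ hi m)
    · exact hi' n m h (hmn.symm ▸ hi n)
  have heinj : Function.Injective e := by
    intro m n hmn
    by_contra hne
    rcases lt_or_gt_of_ne hne with h | h
    · exact hi' m n h (by rw [hmn]; exact hi n)
    · exact hi' n m h (by rw [← hmn]; exact hi m)
  obtain ⟨x, hx⟩ := hE (Set.range e) (by rintro _ ⟨n, rfl⟩; exact hE' _)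
    (Set.infinite_range_of_injective heinj)
  set u := p x with hu
  let h : A → ℕ := Function.extend i
    (fun n => ⌈|ht (un (p (e n))).1 - ht (un u).1|⌉₊ + 1) 0
  have hh : ∀ n, h (i n) = ⌈|ht (un (p (e n))).1 - ht (un u).1|⌉₊ + 1 := fun n =>
    hiinj.extend_apply _ _ _
  have hO : {z : Gr y | un z - un u ∈ UU (0, h)} ∈ 𝓝 u :=
    mem_nhds_Gr.2 ⟨Set.univ, univ_mem, (0, h), fun z _ hz => hz⟩
  have hO' := hx _ (hp.continuousAt hO)
  have hN : {n | e n ∈ p ⁻¹' {z : Gr y | un z - un u ∈ UU (0, h)}}.Infinite := by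
    intro hfin
    apply hO'
    refine (hfin.image e).subset ?_
    rintro _ ⟨hz, n, rfl⟩
    exact ⟨n, hz, rfl⟩
  have hfin : {n | i n ∈ (un u).2.2.support}.Finite :=
    Set.Finite.preimage hiinj.injOn (Finset.finite_toSet _)
  obtain ⟨n, hn, hn'⟩ := (hN.sdiff hfin).nonempty
  have hn'' : i n ∉ (un u).2.2.support := hn'
  rcases hn with hn | hn
  · apply hn''
    have h2 : un (p (e n)) = un u := sub_eq_zero.1 hn
    rw [← h2]
    exact hi n
  · have h2 : i n ∈ (un (p (e n)) - un u).2.2.support := by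
      have h3 : (un (p (e n)) - un u).2.2 = (un (p (e n))).2.2 - (un u).2.2 := rfl
      rw [h3, Finsupp.mem_support_iff, Finsupp.sub_apply, Finsupp.notMem_support_iff.1 hn'',
        sub_zero]
      exact Finsupp.mem_support_iff.1 (hi n)
    have h3 := le_wt h _ h2
    have h4 : ht (un (p (e n)) - un u).1 = ht (un (p (e n))).1 - ht (un u).1 := map_sub _ _ _
    have h5 : |ht (un (p (e n))).1 - ht (un u).1| ≤
        (⌈|ht (un (p (e n))).1 - ht (un u).1|⌉₊ : ℝ) := Nat.le_ceil _
    have h6 := le_abs_self (ht (un (p (e n))).1 - ht (un u).1)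
    rw [hh] at h3
    simp only [Nat.cast_zero, zero_add] at hn
    rw [h4] at hn
    push_cast at h3
    linarith

theorem not_cprac {y y' : A → T}
    (hkill : ∀ a b : ℕ → B, LinearIndependent (ZMod 2) a → LinearIndependent (ZMod 2) b →
      ∀ r : Ultrafilter ℕ, (r : Filter ℕ) ≤ cofinite → ∀ (b₁ b₂ : B) (c₁ c₂ : C),
        Lim r a (ev b₁ + Finsupp.linearCombination (ZMod 2) y c₁) →
        Lim r b (ev b₂ + Finsupp.linearCombination (ZMod 2) y' c₂) → False) :
    ¬ CPrac (Gr y × Gr y') := by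
  classical
  rintro ⟨D, hD, hacc⟩
  have hC₁ := finite_coeffs (y := y) (Prod.fst : Gr y × Gr y' → Gr y) continuous_fst D hacc
  have hC₂ := finite_coeffs (y := y') (Prod.snd : Gr y × Gr y' → Gr y') continuous_snd D hacc
  -- open sets which avoid finitely many elements of `B`
  have hop : ∀ (y : A → T) (C₁ : Set C), C₁.Finite → ∀ V : Set B, V.Finite →
      ∃ O : Set (Gr y), IsOpen O ∧ O.Nonempty ∧ ∀ x ∈ O, (un x).2.2 ∈ C₁ → (un x).2.1 ∉ V := by
    intro y C₁ hC₁ V hV
    let Z : Set T := (fun q : B × C => ev q.1 + Finsupp.linearCombination (ZMod 2) y q.2) ''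
      (V ×ˢ C₁)
    have hZ : Z.Finite := (hV.prod hC₁).image _
    refine ⟨{x | (mp y x).2 ∈ Zᶜ}, ?_, ?_, ?_⟩
    · exact hZ.isClosed.isOpen_compl.preimage (continuous_snd.comp (continuous_mp y))
    · have h1 : (Set.range ev).Infinite := Set.infinite_range_of_injective ev_injective
      obtain ⟨_, ⟨b, rfl⟩, hb⟩ := (h1.sdiff hZ).nonempty
      refine ⟨un.symm (0, b, 0), ?_⟩
      show ev b + Finsupp.linearCombination (ZMod 2) y 0 ∈ Zᶜ
      rw [map_zero, add_zero]
      exact hb
    · intro x hx hxC hxV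
      exact hx ⟨((un x).2.1, (un x).2.2), ⟨hxV, hxC⟩, rfl⟩
  obtain ⟨s, hsD, hs₁, hs₂⟩ := exists_triangular (fun ω : Gr y × Gr y' => (un ω.1).2.1)
    (fun ω : Gr y × Gr y' => (un ω.2).2.1) D (by
      intro V V' hV hV'
      obtain ⟨O₁, hO₁, hne₁, hO₁V⟩ := hop y _ hC₁ V hV
      obtain ⟨O₂, hO₂, hne₂, hO₂V⟩ := hop y' _ hC₂ V' hV'
      obtain ⟨ω, hω, hωD⟩ := hD.inter_open_nonempty _ (hO₁.prod hO₂) (hne₁.prod hne₂)
      exact ⟨ω, hωD, hO₁V _ hω.1 ⟨ω, hωD, rfl⟩, hO₂V _ hω.2 ⟨ω, hωD, rfl⟩⟩)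
  obtain ⟨⟨c₁, c₂⟩, hc⟩ := infinite_fiber
    (fun n => ((un (s n).1).2.2, (un (s n).2).2.2)) (by
      refine (hC₁.prod hC₂).subset ?_
      rintro _ ⟨n, rfl⟩
      exact ⟨⟨_, hsD n, rfl⟩, ⟨_, hsD n, rfl⟩⟩)
  let ψ : ℕ → ℕ := fun n => hc.natEmbedding _ n
  have hψ : Function.Injective ψ := fun m n h => (hc.natEmbedding _).injective (Subtype.ext h)
  have hψc : ∀ n, ((un (s (ψ n)).1).2.2, (un (s (ψ n)).2).2.2) = (c₁, c₂) := fun n =>
    (hc.natEmbedding _ n).2
  have hs₁' := hs₁.comp ψ hψ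
  have hs₂' := hs₂.comp ψ hψ
  have hinj : Function.Injective fun n => s (ψ n) := by
    intro m n h
    apply hs₁'.injective
    show (un (s (ψ m)).1).2.1 = (un (s (ψ n)).1).2.1
    have h' : s (ψ m) = s (ψ n) := h
    rw [h']
  obtain ⟨x, hx⟩ := hacc (Set.range fun n => s (ψ n)) (by rintro _ ⟨n, rfl⟩; exact hsD _)
    (Set.infinite_range_of_injective hinj)
  let m : Gr y × Gr y' → (R × T) × (R × T) := fun ω => (mp y ω.1, mp y' ω.2)
  have hm : Continuous m :=
    ((continuous_mp y).comp continuous_fst).prodMk ((continuous_mp y').comp continuous_snd)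
  have hcl : MapClusterPt (m x) cofinite (fun n => m (s (ψ n))) := by
    rw [mapClusterPt_iff_frequently]
    intro K hK
    rw [frequently_cofinite_iff_infinite]
    intro hfin
    apply hx _ (hm.continuousAt hK)
    refine (hfin.image fun n => s (ψ n)).subset ?_
    rintro _ ⟨hz, n, rfl⟩
    exact ⟨n, hz, rfl⟩
  obtain ⟨r, hr, hlim⟩ := mapClusterPt_iff_ultrafilter.1 hcl
  have h1 : Tendsto (fun n => (mp y (s (ψ n)).1).2) r (𝓝 (mp y x.1).2) :=
    (continuous_snd.tendsto _).comp ((continuous_fst.tendsto _).comp hlim)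
  have h2 : Tendsto (fun n => (mp y' (s (ψ n)).2).2) r (𝓝 (mp y' x.2).2) :=
    (continuous_snd.tendsto _).comp ((continuous_snd.tendsto _).comp hlim)
  have h3 := h1.sub (tendsto_const_nhds (x := Finsupp.linearCombination (ZMod 2) y c₁))
  have h4 := h2.sub (tendsto_const_nhds (x := Finsupp.linearCombination (ZMod 2) y' c₂))
  refine hkill _ _ hs₁' hs₂' r hr (un x.1).2.1 (un x.2).2.1 ((un x.1).2.2 - c₁)
    ((un x.2).2.2 - c₂) (Lim.of_tendsto ?_) (Lim.of_tendsto ?_)
  · convert h3 using 1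
    · funext n
      have h5 := (Prod.ext_iff.1 (hψc n)).1
      simp only at h5
      rw [mp_apply, h5]
      exact (add_sub_cancel_right _ _).symm
    · rw [mp_apply, map_sub, add_sub_assoc]
  · convert h4 using 1
    · funext n
      have h5 := (Prod.ext_iff.1 (hψc n)).2
      simp only at h5
      rw [mp_apply, h5]
      exact (add_sub_cancel_right _ _).symm
    · rw [mp_apply, map_sub, add_sub_assoc]

end Helper53K9.PP
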