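import Pool.Agent.Helper53K9.PP.Grp

/-!
# The groups are Hausdorff and countably pracompact
-/

set_option autoImplicit false

namespace Helper53K9.PP

open Filter Topology Cardinal

theorem Lim.tendsto {r : Ultrafilter ℕ} {a : ℕ → B} {z : T} (h : Lim r a z) :
    Tendsto (fun n => ev (a n)) r (𝓝 z) := by
  rw [tendsto_pi_nhds]
  intro χ
  refine tendsto_const_nhds.congr' ?_
  filter_upwards [h χ] with n hn
  exact hn.symm

theorem Lim.of_tendsto {r : Ultrafilter ℕ} {a : ℕ → B} {z : T}
    (h : Tendsto (fun n => ev (a n)) r (𝓝 z)) : Lim r a z := by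
  rw [tendsto_pi_nhds] at h
  intro χ
  have h1 := h χ
  have h2 : ({z χ} : Set (ZMod 2)) ∈ 𝓝 (z χ) := by
    rw [nhds_discrete]
    exact rfl
  filter_upwards [h1 h2] with n hn
  exact hn

theorem t2_Gr (y : A → T) (hy : ∀ (b : B) (c : C),
    ev b + Finsupp.linearCombination (ZMod 2) y c = 0 → b = 0 ∧ c = 0) : T2Space (Gr y) := by
  refine T2Space.of_injective_continuous (f := mp y) ?_ (continuous_mp y)
  rw [injective_iff_map_eq_zero]
  intro g hg
  rw [mp_apply, Prod.ext_iff] at hg
  obtain ⟨h1, h2⟩ := hg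
  obtain ⟨h3, h4⟩ := hy _ _ h2
  exact Prod.ext h1 (Prod.ext h3 h4)

/-- The limit property of the family `y`. -/
def HasLims (y : A → T) : Prop :=
  ∀ a : A, ∃ r : Ultrafilter ℕ, (r : Filter ℕ) ≤ cofinite ∧ Lim r a.1 (y a)

theorem mem_closure_ev {y : A → T} (hy : HasLims y) (g : Gr y) :
    (mp y g).2 ∈ closure (Set.range ev) := by
  let H : AddSubgroup T := (AddMonoidHom.range (ev : B →+ T)).topologicalClosure
  have hH : (H : Set T) = closure (Set.range ev) := rfl
  rw [← hH, mp_apply]
  refine H.add_mem ?_ ?_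
  · rw [← SetLike.mem_coe, hH]
    exact subset_closure ⟨_, rfl⟩
  · rw [Finsupp.linearCombination_apply, Finsupp.sum]
    refine H.sum_mem fun a _ => ?_
    rcases zmod2_cases ((un g).2.2 a) with h | h
    · rw [h, zero_smul]
      exact H.zero_mem
    · rw [h, one_smul, ← SetLike.mem_coe, hH]
      obtain ⟨r, -, hr⟩ := hy a
      exact mem_closure_of_tendsto hr.tendsto (Eventually.of_forall fun n => ⟨_, rfl⟩)

/-- Every infinite set of indices contains an independent or a constant sequence. -/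
theorem exists_triangular {Ω : Type*} (f g : Ω → B) (E : Set Ω)
    (h : ∀ V V' : Set B, V.Finite → V'.Finite → ∃ ω ∈ E, f ω ∉ V ∧ g ω ∉ V') :
    ∃ s : ℕ → Ω, (∀ n, s n ∈ E) ∧ LinearIndependent (ZMod 2) (fun n => f (s n)) ∧
      LinearIndependent (ZMod 2) (fun n => g (s n)) := by
  classical
  have hspan : ∀ (k : Ω → B) (S : Finset Ω),
      ((Submodule.span (ZMod 2) (k '' (S : Set Ω)) : Submodule (ZMod 2) B) : Set B).Finite := by
    intro k S
    have hfin : (k '' (S : Set Ω)).Finite := S.finite_toSet.image _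
    have : FiniteDimensional (ZMod 2) (Submodule.span (ZMod 2) (k '' (S : Set Ω))) :=
      FiniteDimensional.span_of_finite _ hfin
    have h2 : Finite (Submodule.span (ZMod 2) (k '' (S : Set Ω))) :=
      Module.finite_of_finite (ZMod 2)
    exact Set.toFinite _
  have h1 : ∀ S : Finset Ω, ∃ ω ∈ E, f ω ∉ Submodule.span (ZMod 2) (f '' (S : Set Ω)) ∧
      g ω ∉ Submodule.span (ZMod 2) (g '' (S : Set Ω)) := fun S =>
    h _ _ (hspan f S) (hspan g S)
  choose step hE hf hg using h1
  let S : ℕ → Finset Ω := fun n => Nat.rec ∅ (fun _ S => insert (step S) S) n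
  have hS : ∀ n, S (n + 1) = insert (step (S n)) (S n) := fun n => rfl
  have hmono : ∀ m n, m ≤ n → S m ⊆ S n := by
    intro m n hmn
    induction n, hmn using Nat.le_induction with
    | base => exact subset_rfl
    | succ n _ ih => exact ih.trans (by rw [hS]; exact Finset.subset_insert _ _)
  have hmem : ∀ k n, k < n → step (S k) ∈ S n := by
    intro k n hkn
    apply hmono (k + 1) n hkn
    rw [hS]
    exact Finset.mem_insert_self _ _
  have key : ∀ k : Ω → B, (∀ S : Finset Ω, k (step S) ∉ Submodule.span (ZMod 2) (k '' (S : Set Ω))) →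
      LinearIndependent (ZMod 2) (fun n => k (step (S n))) := by
    intro k hk
    rw [linearIndependent_iff]
    intro c hc
    by_contra hne
    have hsn : c.support.Nonempty := Finsupp.support_nonempty_iff.2 hne
    set m := c.support.max' hsn with hm
    have hmc : c m = 1 := (zmod2_cases _).resolve_left
      (Finsupp.mem_support_iff.1 (Finset.max'_mem _ hsn))
    apply hk (S m)
    have h3 : k (step (S m)) = -Finsupp.linearCombination (ZMod 2) (fun n => k (step (S n)))
        (c.erase m) := by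
      rw [eq_neg_iff_add_eq_zero, ← hc]
      conv_rhs => rw [← Finsupp.single_add_erase m c]
      rw [map_add, Finsupp.linearCombination_single, hmc, one_smul]
    rw [h3]
    refine Submodule.neg_mem _ ?_
    rw [Finsupp.linearCombination_apply, Finsupp.sum]
    refine Submodule.sum_mem _ fun j hj => Submodule.smul_mem _ _ (Submodule.subset_span ?_)
    rw [Finsupp.support_erase, Finset.mem_erase] at hj
    refine ⟨step (S j), ?_, rfl⟩
    exact hmem j m (lt_of_le_of_ne (Finset.le_max' _ _ hj.2) hj.1)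
  exact ⟨fun n => step (S n), fun n => hE _, key f hf, key g hg⟩

theorem exists_sub (b : ℕ → B) {K : Set ℕ} (hK : K.Infinite) :
    ∃ s : ℕ → ℕ, Function.Injective s ∧ (∀ n, s n ∈ K) ∧
      ((∃ b₀, ∀ n, b (s n) = b₀) ∨ LinearIndependent (ZMod 2) (fun n => b (s n))) := by
  by_cases hfin : (b '' K).Finite
  · have h1 : ∃ b₀ ∈ b '' K, {k ∈ K | b k = b₀}.Infinite := by
      by_contra hc
      push Not at hc
      apply hK
      refine (hfin.biUnion hc).subset ?_
      intro k hk
      exact Set.mem_biUnion ⟨k, hk, rfl⟩ ⟨hk, rfl⟩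
    obtain ⟨b₀, -, hb₀⟩ := h1
    refine ⟨fun n => hb₀.natEmbedding _ n, ?_, ?_, Or.inl ⟨b₀, ?_⟩⟩
    · intro m n h
      exact (hb₀.natEmbedding _).injective (Subtype.ext h)
    · exact fun n => (hb₀.natEmbedding _ n).2.1
    · exact fun n => (hb₀.natEmbedding _ n).2.2
  · obtain ⟨s, hs, hs', -⟩ := exists_triangular b b K (by
      intro V V' hV hV'
      have h1 : ((b '' K) \ (V ∪ V')).Infinite := Set.Infinite.sdiff hfin (hV.union hV')
      obtain ⟨x, ⟨k, hk, rfl⟩, hx⟩ := h1.nonempty
      exact ⟨k, hk, fun h => hx (Or.inl h), fun h => hx (Or.inr h)⟩)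
    refine ⟨s, ?_, hs, Or.inr hs'⟩
    intro m n h
    exact hs'.injective (congrArg b h)

/-- The groups are countably pracompact. -/
theorem cprac_Gr {y : A → T} (hy : HasLims y) : CPrac (Gr y) := by
  classical
  obtain ⟨t, b, htb, hd⟩ := exists_seq (B := B) (R := R) ht ht_spec
  let d : ℕ → Gr y := fun k => un.symm (t k, b k, 0)
  have hmpd : ∀ k, mp y (d k) = (t k, ev (b k)) := by
    intro k
    rw [mp_apply]
    show (t k, ev (b k) + Finsupp.linearCombination (ZMod 2) y 0) = _
    rw [map_zero, add_zero]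
  refine ⟨Set.range d, ?_, ?_⟩
  · intro g
    rw [mem_closure_iff_nhds]
    intro s hs
    obtain ⟨K, hK, p, hp⟩ := mem_nhds_Gr.1 hs
    rw [nhds_prod_eq, Filter.mem_prod_iff] at hK
    obtain ⟨K₁, hK₁, K₂, hK₂, hKK⟩ := hK
    obtain ⟨_, hzK, b₀, rfl⟩ := mem_closure_iff_nhds.1 (mem_closure_ev hy g) K₂ hK₂
    obtain ⟨M, hM⟩ := exists_nat_ge ((p.1 : ℝ) + wt p.2 (un g).2.2 + ht (un g).1)
    obtain ⟨k, hkM, hkb, hkt⟩ := hd (un g).1 b₀ K₁ hK₁ M
    refine ⟨d k, hp _ ?_ (Or.inr ?_), ⟨k, rfl⟩⟩
    · rw [hmpd]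
      exact hKK ⟨hkt, by rw [hkb]; exact hzK⟩
    · have h1 : (un (d k) - un g).2.2 = -(un g).2.2 := zero_sub _
      have h2 : (un (d k) - un g).1 = t k - (un g).1 := rfl
      have h3 : wt p.2 (-(un g).2.2) = wt p.2 (un g).2.2 := by
        unfold wt
        rw [Finsupp.support_neg]
      rw [h1, h2, h3, map_sub]
      have h4 := htb k
      have h5 : (M : ℝ) ≤ k := Nat.cast_le.2 hkM
      linarith
  · intro E hE hinf
    have hK : {k | d k ∈ E}.Infinite := by
      intro hfin
      apply hinf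
      refine (hfin.image d).subset ?_
      intro x hx
      obtain ⟨k, rfl⟩ := hE hx
      exact ⟨k, hx, rfl⟩
    obtain ⟨s, hs, hsK, hs'⟩ := exists_sub b hK
    -- accumulation points
    have acc : ∀ (r : Ultrafilter ℕ), (r : Filter ℕ) ≤ cofinite → ∀ (b' : B) (c' : C),
        Tendsto (fun n => ev (b (s n))) r
          (𝓝 (ev b' + Finsupp.linearCombination (ZMod 2) y c')) →
        ∃ x : Gr y, ∀ O ∈ 𝓝 x, (O ∩ E).Infinite := by
      intro r hr b' c' hlim
      obtain ⟨t', -, ht'⟩ := isCompact_univ.ultrafilter_le_nhds (r.map fun n => t (s n))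
        (by simp)
      refine ⟨un.symm (t', b', c'), fun O hO => ?_⟩
      obtain ⟨K, hK, p, hp⟩ := mem_nhds_Gr.1 hO
      have h1 : Tendsto (fun n => mp y (d (s n))) r (𝓝 (mp y (un.symm (t', b', c')))) := by
        have h2 : mp y (un.symm (t', b', c')) =
            (t', ev b' + Finsupp.linearCombination (ZMod 2) y c') := rfl
        rw [h2]
        simp only [hmpd]
        exact Tendsto.prodMk_nhds ht' hlim
      have h3 : ∀ M : ℝ, ∀ᶠ n in (r : Filter ℕ), M ≤ ht (t (s n)) := by
        intro M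
        apply hr
        obtain ⟨M', hM'⟩ := exists_nat_ge M
        have h4 : {n | s n < M'}.Finite :=
          Set.Finite.preimage hs.injOn (Set.finite_lt_nat M')
        refine mem_of_superset h4.compl_mem_cofinite ?_
        intro n hn
        have h5 : M' ≤ s n := not_lt.1 hn
        show M ≤ ht (t (s n))
        have h6 := htb (s n)
        have h7 : (M' : ℝ) ≤ s n := Nat.cast_le.2 h5
        linarith
      have h4 : ∀ᶠ n in (r : Filter ℕ), d (s n) ∈ O := by
        filter_upwards [h1 hK, h3 ((p.1 : ℝ) + wt p.2 (-c') + ht t')] with n hn hn'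
        refine hp _ hn (Or.inr ?_)
        have h5 : (un (d (s n)) - un (un.symm (t', b', c') : Gr y)).2.2 = -c' := zero_sub _
        have h6 : (un (d (s n)) - un (un.symm (t', b', c') : Gr y)).1 = t (s n) - t' := rfl
        rw [h5, h6, map_sub]
        linarith
      intro hfin
      obtain ⟨M, hM⟩ := (hfin.image fun x : Gr y => ht (un x).1).bddAbove
      have h5 := h4.and (h3 (M + 1))
      obtain ⟨n, hn, hn'⟩ := h5.exists
      have h6 := hM ⟨d (s n), ⟨hn, hsK n⟩, rfl⟩
      have h7 : ht (un (d (s n))).1 = ht (t (s n)) := rfl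
      simp only at h6
      rw [h7] at h6
      linarith
    rcases hs' with ⟨b₀, hb₀⟩ | hind
    · refine acc (hyperfilter ℕ) hyperfilter_le_cofinite b₀ 0 ?_
      simp only [hb₀, map_zero, add_zero]
      exact tendsto_const_nhds
    · obtain ⟨r, hr, hr'⟩ := hy ⟨_, hind⟩
      refine acc r hr 0 (Finsupp.single ⟨_, hind⟩ 1) ?_
      rw [map_zero, zero_add, Finsupp.linearCombination_single, one_smul]
      exact hr'.tendsto

end Helper53K9.PP
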