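import Pool.Agent.Helper53K9.PP.Ind

/-!
# The generic family of limits
-/

set_option autoImplicit false

namespace Helper53K9.PP

open Filter Cardinal

theorem ev_injective : Function.Injective ev := by
  intro b b' h
  ext n
  have := congrFun h (Finsupp.lapply n)
  simpa using this

/-- The span of the group and of a set of points. -/
noncomputable def Sp (S : Set T) : Submodule (ZMod 2) T :=
  Submodule.span (ZMod 2) (Set.range ev ∪ S)

/-- The points which are to be avoided. -/
def Gam (S : Set T) : Set T :=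
  {w | ∃ a b : ℕ → B, LinearIndependent (ZMod 2) a ∧ LinearIndependent (ZMod 2) b ∧
    ∃ (r : Ultrafilter ℕ) (v g : T), v ∈ Sp S ∧ g ∈ Sp S ∧ Lim r b v ∧ Lim r a (w + g)}

theorem ev_mem_Sp (S : Set T) (b : B) : ev b ∈ Sp S :=
  Submodule.subset_span (Or.inl ⟨b, rfl⟩)

theorem mk_B_le : #B ≤ ℵ₀ := Cardinal.mk_le_aleph0

theorem mk_seq_le : #(ℕ → B) ≤ 𝔠 := by
  rw [← Cardinal.power_def, Cardinal.mk_nat, ← Cardinal.aleph0_power_aleph0]
  exact Cardinal.power_le_power_right mk_B_le

theorem mk_Sp_le {S : Set T} (hS : #S ≤ 𝔠) : #(Sp S) ≤ 𝔠 := by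
  have h0 : Infinite (Set.range ev ∪ S : Set T) := by
    have h : (Set.range ev).Infinite := Set.infinite_range_of_injective ev_injective
    exact (h.mono Set.subset_union_left).to_subtype
  have h1 : #(Set.range ev ∪ S : Set T) ≤ 𝔠 := by
    refine (Cardinal.mk_union_le _ _).trans ?_
    refine (add_le_add (Cardinal.mk_range_le.trans (mk_B_le.trans Cardinal.aleph0_le_continuum))
      hS).trans ?_
    simp
  have h2 : Function.Surjective (fun c : (Set.range ev ∪ S : Set T) →₀ ZMod 2 =>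
      (⟨Finsupp.linearCombination (ZMod 2) (fun i : (Set.range ev ∪ S : Set T) => (i : T)) c, by
        rw [Sp]
        exact (Finsupp.mem_span_iff_linearCombination _ _ _).2 ⟨c, rfl⟩⟩ : Sp S)) := by
    rintro ⟨z, hz⟩
    obtain ⟨c, hc⟩ := (Finsupp.mem_span_iff_linearCombination _ _ _).1 hz
    exact ⟨c, Subtype.ext hc⟩
  refine (Cardinal.mk_le_of_surjective h2).trans ?_
  rw [Cardinal.mk_finsupp_lift_of_infinite]
  simp only [Cardinal.lift_id]
  refine max_le h1 ?_
  exact (Cardinal.mk_le_aleph0).trans Cardinal.aleph0_le_continuum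

theorem mk_Gam_le {S : Set T} (hS : #S ≤ 𝔠) : #(Gam S) ≤ 𝔠 := by
  classical
  let Φ : (ℕ → B) × (ℕ → B) × Sp S × Sp S → T := fun q =>
    if h : ∃ w : T, LinearIndependent (ZMod 2) q.2.1 ∧
      ∃ r : Ultrafilter ℕ, Lim r q.2.1 q.2.2.1 ∧ Lim r q.1 (w + q.2.2.2) then h.choose else 0
  have h1 : Gam S ⊆ Set.range Φ := by
    rintro w ⟨a, b, ha, hb, r, v, g, hv, hg, hbv, haw⟩
    refine ⟨(a, b, ⟨v, hv⟩, ⟨g, hg⟩), ?_⟩
    have h : ∃ w : T, LinearIndependent (ZMod 2) b ∧
      ∃ r : Ultrafilter ℕ, Lim r b v ∧ Lim r a (w + g) := ⟨w, hb, r, hbv, haw⟩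
    have h2 : Φ (a, b, ⟨v, hv⟩, ⟨g, hg⟩) = h.choose := dif_pos h
    rw [h2]
    obtain ⟨-, r', hr1, hr2⟩ := h.choose_spec
    have h3 : r' = r := Lim.ultra_unique hb hr1 hbv
    subst h3
    exact add_right_cancel (hr2.unique haw)
  refine (Cardinal.mk_le_mk_of_subset h1).trans (Cardinal.mk_range_le.trans ?_)
  rw [Cardinal.mk_prod, Cardinal.mk_prod, Cardinal.mk_prod]
  simp only [Cardinal.lift_id]
  have h4 := mk_seq_le
  have h5 := mk_Sp_le hS
  calc #(ℕ → B) * (#(ℕ → B) * (#(Sp S) * #(Sp S))) ≤ 𝔠 * (𝔠 * (𝔠 * 𝔠)) := by gcongr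
    _ = 𝔠 := by simp

/-- Transfinite recursion. -/
theorem exists_rec {I T' : Type} [LinearOrder I] [WellFoundedLT I] (P : I → T' → Prop)
    (F : Set T' → Set T') (h : ∀ i (S : Set T'), #S ≤ #I → ∃ z, P i z ∧ z ∉ F S) :
    ∃ x : I → T', ∀ i, P i (x i) ∧ x i ∉ F (x '' Set.Iio i) := by
  have hc : ∀ (i : I) (f : ∀ j, j < i → T'),
      #(Set.range fun j : Set.Iio i => f j.1 j.2) ≤ #I := by
    intro i f
    exact Cardinal.mk_range_le.trans (Cardinal.mk_subtype_le _)
  let step : ∀ i, (∀ j, j < i → T') → T' := fun i f => (h i _ (hc i f)).choose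
  let x : I → T' := WellFounded.fix (wellFounded_lt (α := I)) step
  have hx : ∀ i, x i = step i (fun j _ => x j) := fun i => WellFounded.fix_eq _ _ _
  refine ⟨x, fun i => ?_⟩
  have h1 := (h i _ (hc i fun j _ => x j)).choose_spec
  have h2 : (Set.range fun j : Set.Iio i => x j.1) = x '' Set.Iio i := by
    rw [Set.image_eq_range]
  rw [hx i]
  rw [← h2]
  exact h1

/-- The index set: the independent sequences. -/
abbrev A : Type := {a : ℕ → B // LinearIndependent (ZMod 2) a}

theorem span_Iio {I : Type} [LinearOrder I] (x : I → T) (i : I) (c : I →₀ ZMod 2)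
    (hc : ∀ j ∈ c.support, j < i) : Finsupp.linearCombination (ZMod 2) x c ∈ Sp (x '' Set.Iio i) := by
  rw [Finsupp.linearCombination_apply, Finsupp.sum]
  refine Submodule.sum_mem _ fun j hj => Submodule.smul_mem _ _ ?_
  exact Submodule.subset_span (Or.inr ⟨j, hc j hj, rfl⟩)

theorem split_max {I : Type} [LinearOrder I] (x : I → T) (i : I) (c : I →₀ ZMod 2)
    (hi : i ∈ c.support) (hc : ∀ j ∈ c.support, j ≤ i) :
    ∃ g ∈ Sp (x '' Set.Iio i), Finsupp.linearCombination (ZMod 2) x c = x i + g := by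
  refine ⟨Finsupp.linearCombination (ZMod 2) x (c.erase i), span_Iio x i _ ?_, ?_⟩
  · intro j hj
    rw [Finsupp.support_erase, Finset.mem_erase] at hj
    exact lt_of_le_of_ne (hc j hj.2) hj.1
  · have h1 : c i = 1 := (zmod2_cases _).resolve_left (Finsupp.mem_support_iff.1 hi)
    conv_lhs => rw [← Finsupp.single_add_erase i c]
    rw [map_add, Finsupp.linearCombination_single, h1, one_smul]

theorem exists_family : ∃ y : Bool → A → T,
    (∀ β a, ∃ r : Ultrafilter ℕ, (r : Filter ℕ) ≤ cofinite ∧ Lim r a.1 (y β a)) ∧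
    (∀ β (b : B) (c : A →₀ ZMod 2),
      ev b + Finsupp.linearCombination (ZMod 2) (y β) c = 0 → b = 0 ∧ c = 0) ∧
    ∀ a b : ℕ → B, LinearIndependent (ZMod 2) a → LinearIndependent (ZMod 2) b →
      ∀ r : Ultrafilter ℕ, (r : Filter ℕ) ≤ cofinite →
      ∀ (b₁ b₂ : B) (c₁ c₂ : A →₀ ZMod 2),
        Lim r a (ev b₁ + Finsupp.linearCombination (ZMod 2) (y true) c₁) →
        Lim r b (ev b₂ + Finsupp.linearCombination (ZMod 2) (y false) c₂) → False := by
  classical
  obtain ⟨lo, wf⟩ := exists_wellFoundedLT (A × Bool)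
  have hI : #(A × Bool) ≤ 𝔠 := by
    rw [Cardinal.mk_prod]
    simp only [Cardinal.lift_id]
    have h1 : #A ≤ 𝔠 := (Cardinal.mk_subtype_le _).trans mk_seq_le
    calc #A * #Bool ≤ 𝔠 * 𝔠 := by
          gcongr
          exact (Cardinal.mk_le_aleph0).trans Cardinal.aleph0_le_continuum
      _ = 𝔠 := by simp
  obtain ⟨x, hx⟩ := exists_rec (I := A × Bool)
    (fun i z => ∃ r : Ultrafilter ℕ, (r : Filter ℕ) ≤ cofinite ∧ Lim r i.1.1 z)
    (fun S => Gam S ∪ (Sp S : Set T)) (by
      intro i S hS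
      have hS' := hS.trans hI
      obtain ⟨z, hz, r, hr, hrz⟩ := exists_Lim_notMem i.1.2 (Gam S ∪ (Sp S : Set T)) (by
        refine (Cardinal.mk_union_le _ _).trans ?_
        refine (add_le_add (mk_Gam_le hS') (mk_Sp_le hS')).trans ?_
        simp)
      exact ⟨z, ⟨r, hr, hrz⟩, hz⟩)
  have hG : ∀ i, x i ∉ Gam (x '' Set.Iio i) := fun i h => (hx i).2 (Or.inl h)
  have hS : ∀ i, x i ∉ Sp (x '' Set.Iio i) := fun i h => (hx i).2 (Or.inr h)
  let y : Bool → A → T := fun β a => x (a, β)
  -- transport of combinations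
  have htr : ∀ (β : Bool) (c : A →₀ ZMod 2), Finsupp.linearCombination (ZMod 2) (y β) c =
      Finsupp.linearCombination (ZMod 2) x (c.mapDomain fun a => (a, β)) := by
    intro β c
    rw [Finsupp.linearCombination_mapDomain]
    rfl
  have hinj : ∀ β : Bool, Function.Injective (fun a : A => (a, β)) := fun β a a' h =>
    (Prod.ext_iff.1 h).1
  have hsupp : ∀ (β : Bool) (c : A →₀ ZMod 2) (i : A × Bool),
      i ∈ (c.mapDomain fun a => (a, β)).support → i.2 = β := by
    intro β c i hi
    have h1 := Finsupp.mapDomain_support hi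
    obtain ⟨a, -, rfl⟩ := Finset.mem_image.1 h1
    rfl
  refine ⟨y, fun β a => (hx (a, β)).1, ?_, ?_⟩
  · intro β b c h
    by_cases hc : c = 0
    · subst hc
      rw [map_zero, add_zero] at h
      exact ⟨ev_injective (h.trans (map_zero ev).symm), rfl⟩
    · exfalso
      rw [htr] at h
      set c' := c.mapDomain fun a => (a, β) with hc'
      have hc0 : c' ≠ 0 := fun h0 => hc (Finsupp.mapDomain_injective (hinj β) (by
        rw [← hc', h0, Finsupp.mapDomain_zero]))
      have hne : c'.support.Nonempty := Finsupp.support_nonempty_iff.2 hc0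
      obtain ⟨g, hg, hg'⟩ := split_max x (c'.support.max' hne) c' (Finset.max'_mem _ _)
        fun j hj => Finset.le_max' _ _ hj
      rw [hg'] at h
      have h1 : x (c'.support.max' hne) = -(ev b + g) := by
        rw [eq_neg_iff_add_eq_zero]
        rw [← h]
        abel
      apply hS (c'.support.max' hne)
      rw [h1]
      exact Submodule.neg_mem _ (Submodule.add_mem _ (ev_mem_Sp _ _) hg)
  · intro a b ha hb r hr b₁ b₂ c₁ c₂ h₁ h₂
    rw [htr] at h₁ h₂
    have hs₁ := hsupp true c₁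
    have hs₂ := hsupp false c₂
    set d₁ := c₁.mapDomain fun a => (a, true)
    set d₂ := c₂.mapDomain fun a => (a, false)
    by_cases hne : (d₁.support ∪ d₂.support).Nonempty
    · set i := (d₁.support ∪ d₂.support).max' hne with hi
      have hle : ∀ j ∈ d₁.support ∪ d₂.support, j ≤ i := fun j hj => Finset.le_max' _ _ hj
      rcases Finset.mem_union.1 (Finset.max'_mem _ hne) with hm | hm
      · rw [← hi] at hm
        obtain ⟨g, hg, hg'⟩ := split_max x i d₁ hm fun j hj => hle j (Finset.mem_union_left _ hj)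
        have h3 : Finsupp.linearCombination (ZMod 2) x d₂ ∈ Sp (x '' Set.Iio i) := by
          refine span_Iio x i _ fun j hj => lt_of_le_of_ne (hle j (Finset.mem_union_right _ hj)) ?_
          rintro rfl
          have := hs₁ _ hm
          rw [hs₂ _ hj] at this
          exact Bool.false_ne_true this
        refine hG i ⟨a, b, ha, hb, r, _, ev b₁ + g, Submodule.add_mem _ (ev_mem_Sp _ b₂) h3,
          Submodule.add_mem _ (ev_mem_Sp _ b₁) hg, h₂, ?_⟩
        rw [hg'] at h₁
        convert h₁ using 1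
        abel
      · rw [← hi] at hm
        obtain ⟨g, hg, hg'⟩ := split_max x i d₂ hm fun j hj => hle j (Finset.mem_union_right _ hj)
        have h3 : Finsupp.linearCombination (ZMod 2) x d₁ ∈ Sp (x '' Set.Iio i) := by
          refine span_Iio x i _ fun j hj => lt_of_le_of_ne (hle j (Finset.mem_union_left _ hj)) ?_
          rintro rfl
          have := hs₁ _ hj
          rw [hs₂ _ hm] at this
          exact Bool.false_ne_true this
        refine hG i ⟨b, a, hb, ha, r, _, ev b₂ + g, Submodule.add_mem _ (ev_mem_Sp _ b₁) h3,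
          Submodule.add_mem _ (ev_mem_Sp _ b₂) hg, h₁, ?_⟩
        rw [hg'] at h₂
        convert h₂ using 1
        abel
    · rw [Finset.not_nonempty_iff_eq_empty, Finset.union_eq_empty] at hne
      have h3 : d₁ = 0 := Finsupp.support_eq_empty.1 hne.1
      rw [h3, map_zero, add_zero] at h₁
      exact Lim.notMem_range ha hr h₁

end Helper53K9.PP
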